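import Pool.Agent.Q16.BB.Main

/-!
# MP_bb5cc8: for every choice of residues almost every window is well covered

`S a α N x` is the number of the integers of the window `(x, x + N]` which lie in the chosen class
`a p` modulo some prime `p` of `[N^α, 2N^α)`; the `S_a(N)` of the problem is `S a α N 0`.
Q1 asks whether `S a α N x ≥ N^(1-ε)` for all choices `a` (equivalently, translating the choice, for
all `a` and all `x`), once `N` is large.

(1) For every choice `a` (no averaging over the choices) and every interval `[x₀, x₀ + T)` of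
starting points of length `T ≥ (2N^α)^(K+1)`, the windows with `S < η N / log N` form a proportion of
at most `36 · 16^(K+1) · (K+1)! · η^K`; the threshold `N₀` depends on `α` only, so `K` may grow with
`N`.

(2) Hence for all `ε, A > 0` there is `E` such that for all large `N`, every choice `a` and every
interval of `T ≥ N^E` starting points, at most `T / N^A` of the windows have `S < N^(1-ε)`.
-/

set_option autoImplicit false

namespace Pool.Agent.Results.MP_bb5cc8_nt.AlmostEveryWindow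

open Finset
open Pool.Agent.Results.MP_bb5cc8_nt.SumsDifferences (window)

open Classical in
/-- The number of the integers `n` of `(x, x + N]` with `n ≡ a p (mod p)` for some prime `p` with
`N ^ α ≤ p < 2 N ^ α`. -/
noncomputable def S (a : ℕ → ℤ) (α : ℝ) (N : ℕ) (x : ℤ) : ℕ :=
  ((Ioc x (x + N)).filter (fun n => ∃ p ∈ window α N, n ≡ a p [ZMOD p])).card

lemma S_eq (a : ℕ → ℤ) (α : ℝ) (N : ℕ) (x : ℤ) :
    S a α N x = Pool.Agent.Q16.BB.SS a (window α N) N x := by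
  classical
  unfold S Pool.Agent.Q16.BB.SS
  congr 1

open Classical in
/-- The starting points `x` of `[x₀, x₀ + T)` whose window `(x, x + N]` has fewer than `Y` covered
integers. -/
noncomputable def bad (a : ℕ → ℤ) (α : ℝ) (N : ℕ) (x₀ : ℤ) (T : ℕ) (Y : ℝ) : Finset ℤ :=
  (Ico x₀ (x₀ + T)).filter (fun x => (S a α N x : ℝ) < Y)

lemma part1 (α : ℝ) (h1 : 1 / 2 ≤ α) (h2 : α < 1) : ∃ N₀ : ℕ, ∀ N : ℕ, N₀ ≤ N → ∀ (a : ℕ → ℤ)
    (x₀ : ℤ) (K T : ℕ) (η : ℝ), 0 < η → (2 * (N : ℝ) ^ α) ^ (K + 1) ≤ T →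
    ((bad a α N x₀ T (η * (N / Real.log N))).card : ℝ) ≤
      36 * 16 ^ (K + 1) * (K + 1).factorial * η ^ K * T := by
  classical
  obtain ⟨N₀, h⟩ := Pool.Agent.Q16.BB.main α h1 h2
  refine ⟨N₀, fun N hN a x₀ K T η hη hT => ?_⟩
  have := h N hN a x₀ K T η hη hT
  unfold bad
  simp only [S_eq]
  convert this

lemma part2 (α : ℝ) (h1 : 1 / 2 ≤ α) (h2 : α < 1) (ε : ℝ) (hε : 0 < ε) (A : ℕ) :
    ∃ E N₀ : ℕ, ∀ N : ℕ, N₀ ≤ N → ∀ (a : ℕ → ℤ) (x₀ : ℤ) (T : ℕ), N ^ E ≤ T →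
    ((bad a α N x₀ T ((N : ℝ) ^ (1 - ε))).card : ℝ) ≤ T / (N : ℝ) ^ A := by
  obtain ⟨N₀, h⟩ := part1 α h1 h2
  obtain ⟨K, hK⟩ : ∃ K : ℕ, ((A : ℝ) + 1) / ε ≤ K := exists_nat_ge _
  have hKε : (A : ℝ) + 1 ≤ ε * K := by
    rw [div_le_iff₀ hε] at hK; linarith
  obtain ⟨C, hC⟩ : ∃ C : ℝ, C = 36 * 16 ^ (K + 1) * (K + 1).factorial := ⟨_, rfl⟩
  have hC0 : 0 < C := by rw [hC]; positivity
  have hlit : (fun x : ℝ => (Real.log x) ^ K) =o[Filter.atTop] (fun x : ℝ => x) := by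
    have := Real.isLittleO_pow_log_id_atTop (n := K)
    exact this
  have hlit2 := (hlit.def (c := 1 / C) (by positivity))
  obtain ⟨N₁, hN₁⟩ := Filter.eventually_atTop.1
    (tendsto_natCast_atTop_atTop (R := ℝ) |>.eventually hlit2)
  refine ⟨2 * (K + 1), N₀ + N₁ + 3, fun N hN a x₀ T hT => ?_⟩
  have hN3 : 3 ≤ N := by omega
  have hNr : (3 : ℝ) ≤ N := by exact_mod_cast hN3
  have hN0 : (0 : ℝ) < N := by linarith
  have hL0 : 0 < Real.log N := Real.log_pos (by linarith)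
  have hb := hN₁ N (by omega)
  rw [Real.norm_of_nonneg (by positivity), Real.norm_of_nonneg (by positivity)] at hb
  have hη : 0 < Real.log N * (N : ℝ) ^ (-ε) := by positivity
  have hTr : ((N : ℝ) ^ (2 * (K + 1))) ≤ T := by exact_mod_cast hT
  have hT2 : (2 * (N : ℝ) ^ α) ^ (K + 1) ≤ T := by
    refine le_trans ?_ hTr
    rw [pow_mul]
    apply pow_le_pow_left₀ (by positivity)
    have : (N : ℝ) ^ α ≤ N := by
      calc (N : ℝ) ^ α ≤ (N : ℝ) ^ (1 : ℝ) := Real.rpow_le_rpow_of_exponent_le (by linarith) h2.le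
        _ = N := Real.rpow_one _
    nlinarith
  have hm := h N (by omega) a x₀ K T _ hη hT2
  have e1 : Real.log N * (N : ℝ) ^ (-ε) * (N / Real.log N) = (N : ℝ) ^ (1 - ε) := by
    rw [show (1 - ε) = -ε + 1 by ring, Real.rpow_add_one hN0.ne']
    field_simp
  rw [e1] at hm
  refine hm.trans ?_
  rw [← hC, le_div_iff₀ (by positivity), mul_pow]
  have e2 : ((N : ℝ) ^ (-ε)) ^ K * (N : ℝ) ^ A ≤ 1 / N := by
    rw [← Real.rpow_natCast ((N : ℝ) ^ (-ε)) K, ← Real.rpow_mul hN0.le, ← Real.rpow_natCast (N : ℝ) A,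
      ← Real.rpow_add hN0, one_div, ← Real.rpow_neg_one]
    apply Real.rpow_le_rpow_of_exponent_le (by linarith)
    nlinarith
  have e3 : C * (Real.log N) ^ K ≤ N := by
    have := mul_le_mul_of_nonneg_left hb hC0.le
    rwa [← mul_assoc, mul_one_div_cancel hC0.ne', one_mul] at this
  calc C * (Real.log N ^ K * ((N : ℝ) ^ (-ε)) ^ K) * T * (N : ℝ) ^ A
      = (C * Real.log N ^ K) * (((N : ℝ) ^ (-ε)) ^ K * (N : ℝ) ^ A) * T := by ring
    _ ≤ N * (1 / N) * T := by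
        apply mul_le_mul_of_nonneg_right _ (by positivity)
        apply mul_le_mul e3 e2 (by positivity) (by positivity)
    _ = T := by field_simp

theorem result : ∀ α : ℝ, 1 / 2 ≤ α → α < 1 →
    (∃ N₀ : ℕ, ∀ N : ℕ, N₀ ≤ N → ∀ (a : ℕ → ℤ) (x₀ : ℤ) (K T : ℕ) (η : ℝ),
      0 < η → (2 * (N : ℝ) ^ α) ^ (K + 1) ≤ T →
      ((bad a α N x₀ T (η * (N / Real.log N))).card : ℝ) ≤
        36 * 16 ^ (K + 1) * (K + 1).factorial * η ^ K * T) ∧
    (∀ ε : ℝ, 0 < ε → ∀ A : ℕ, ∃ E N₀ : ℕ, ∀ N : ℕ, N₀ ≤ N → ∀ (a : ℕ → ℤ) (x₀ : ℤ) (T : ℕ),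
      N ^ E ≤ T → ((bad a α N x₀ T ((N : ℝ) ^ (1 - ε))).card : ℝ) ≤ T / (N : ℝ) ^ A) :=
  fun α h1 h2 => ⟨part1 α h1 h2, fun ε hε A => part2 α h1 h2 ε hε A⟩

end Pool.Agent.Results.MP_bb5cc8_nt.AlmostEveryWindow
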