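import Pool.Agent.Q93.CB.Core

/-!
# MP_bb5cc8: covering by one residue class per prime: the number of bad choices

`S α N a` is the number of the `n` in `{1, …, N}` which are covered by the choice `a` of one residue
class modulo every prime in `[N^α, 2N^α)`. Q1 asks whether `S ≥ N^(1-ε)` for every choice, `N` large.

For `1/2 ≤ α < 1` the number of the choices with `S < N^(1-ε)` is at most
`(number of all choices)^(1 - 2ε/α + δ)` for all large `N` (`δ > 0` arbitrary): a power saving in the
exponent, the bad choices have small entropy. For `ε > α/2` this is the elementary bound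
`S ≥ N^(1-α/2)`.
-/

set_option autoImplicit false

namespace Pool.Agent.Results.MP_bb5cc8_nt.FewBadChoices

open Pool.Agent.Q93.CB

theorem result : ∀ α ε δ : ℝ, 1 / 2 ≤ α → α < 1 → 0 < ε → 0 < δ → ∃ N₀ : ℕ, ∀ N : ℕ, N₀ ≤ N →
    (Nat.card {a : Choice α N // (S α N a : ℝ) < (N : ℝ) ^ (1 - ε)} : ℝ) ≤
      (Nat.card (Choice α N) : ℝ) ^ (1 - 2 * ε / α + δ) := counting

end Pool.Agent.Results.MP_bb5cc8_nt.FewBadChoices
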