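import Pool.Agent.Q93.CB.Core

/-!
# MP_bb5cc8: covering by one residue class per prime: random and generic systems of residues

`S α N a` is the number of the `n` in `{1, …, N}` which are covered by the choice `a` of one residue
class modulo every prime in `[N^α, 2N^α)`. Q1 asks whether `S ≥ N^(1-ε)` for every choice, `N` large.

(1) Random choices. Let the residues be independent, `P(ξ_p = r) ≤ K p^(-h)`, `0 ≤ h ≤ 1`. Then almost
surely, simultaneously for all `1/2 ≤ α < 1` and all `ε > α(1-h)/2`: `S ≥ N^(1-ε)` for all large `N`.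
For `h = 1` (bounded density) this is the bound `N^(1-o(1))` of Q1; the case `h = 0` (no randomness)
is the elementary exponent `1 - α/2`.

(2) In the sense of category the situation is different: a system `a(p)`, `p` prime, does not depend
on `N`. The bound `N^(1-o(1))` holds for `α` if and only if it holds along every fixed system, if and
only if it holds along a set of fixed systems which is not meagre in `∏ ℤ/p`; Q1 holds if and only if
the systems for which it holds for all `1/2 < α < 1` simultaneously are not meagre (by (1) they have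
full measure).
-/

set_option autoImplicit false

namespace Pool.Agent.Results.MP_bb5cc8_nt.RandomAndGenericSystems

open Filter MeasureTheory ProbabilityTheory Pool.Agent.Q93.CB

theorem result :
    (∀ (Ω : Type) [MeasurableSpace Ω] (μ : Measure Ω) [IsProbabilityMeasure μ]
      (K h : ℝ), 0 ≤ h → h ≤ 1 → ∀ ξ : ∀ (_ : ℕ) (p : Nat.Primes), Ω → ZMod p,
      (∀ N p, Measurable (ξ N p)) → (∀ N, iIndepFun (ξ N) μ) →
      (∀ (N : ℕ) (p : Nat.Primes) (r : ZMod p), μ.real {ω | ξ N p ω = r} ≤
        K * ((p : ℕ) : ℝ) ^ (-h)) →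
      ∀ᵐ ω ∂μ, ∀ α ε : ℝ, 1 / 2 ≤ α → α < 1 → α * (1 - h) / 2 < ε →
        Eventually α ε fun N p => ξ N p ω) ∧
    (∀ α : ℝ, 0 < α → (Bound α ↔ ∀ a, Along α a) ∧ (Bound α ↔ ¬ IsMeagre {a | Along α a})) ∧
    (Q1 ↔ ¬ IsMeagre {a | ∀ α : ℝ, 1 / 2 < α → α < 1 → Along α a}) :=
  ⟨fun _ _ μ _ K h h0 h1 ξ hm hind hK => random μ K h h0 h1 ξ hm hind hK, category, categoryQ1⟩

end Pool.Agent.Results.MP_bb5cc8_nt.RandomAndGenericSystems
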