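import Pool.Agent.Q202.SM.Final

/-!
# MP_bb5cc8: covering by one residue class per prime: almost all shifts of every choice

`S α N c` is the number of the `n` in `{1, …, N}` which are covered by the choice `c` of one residue
class modulo every prime in `[N^α, 2N^α)`. Q1 asks whether `S ≥ N^(1-ε)` for every choice, `N` large.

We start with an arbitrary choice `a` and move each class to the right by a number `b p < H`, for
each prime `p` on its own. Let `N^h ≤ H ≤ N^α / 2`. If `h ≥ max (2α - 1) (1 - α)`, then
`S ≥ N^(1-ε)` for all but a proportion `exp (-N^(α-ε))` of the shifts `b`. For smaller `h` the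
exponent is `1 - σ - ε`, where `σ` is the difference.

Proof. The mean of the energy (the number of triples `(n, p, q)` with `n` in both classes) is
estimated by the number of pairs of elements of the classes modulo `p` and `q` at distance less than
`H`. If there are several such pairs then `u p` is at distance less than `2 H` from a multiple of `q`
for some small `u`, which is rare on average over `p` and `q`. The number of covered integers
changes little if one class is moved, so it is concentrated around its mean.
-/

set_option autoImplicit false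

namespace Pool.Agent.Results.MP_bb5cc8_nt.ShiftedChoices

open Finset Pool.Agent.Q202.SM

open Classical in
/-- **Almost all shifts of every choice cover many integers.** -/
theorem result (α h σ ε : ℝ) (hα0 : 0 < α) (hα1 : α < 1) (hσ : 0 ≤ σ) (h1 : 2 * α - 1 - h ≤ σ)
    (h2 : 1 - α - h ≤ σ) (hε : 0 < ε) : ∃ N₀ : ℕ, ∀ N : ℕ, N₀ ≤ N → ∀ H : ℕ,
      (N : ℝ) ^ h ≤ H → 2 * (H : ℝ) ≤ (N : ℝ) ^ α → ∀ a : Choice α N,
        ((univ.filter fun b : {p // p ∈ primes α N} → Fin H =>
          (S α N (shift a b) : ℝ) < (N : ℝ) ^ (1 - σ - ε)).card : ℝ) ≤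
          Real.exp (-(N : ℝ) ^ (α - 2 * σ - ε)) * (H : ℝ) ^ (primes α N).card := by
  obtain ⟨N₀, hN₀⟩ := main α h σ ε hα0 hα1 hσ h1 h2 hε
  refine ⟨N₀, fun N hN H hH1 hH2 a => ?_⟩
  have h3 := hN₀ N hN H hH1 hH2 (rep a)
  simp only [covered_eq] at h3
  exact h3

end Pool.Agent.Results.MP_bb5cc8_nt.ShiftedChoices
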